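import Mathlib

/-!
Caterpillar forests: every component carries a label that graph isomorphisms preserve.
-/

set_option autoImplicit false

namespace Pool.Agent.Lib.BIso

open Set SimpleGraph

variable {J : Type} {D D' : J → Prop} {l : J → ℕ → Prop}

/-- the places of the legs -/
def lab (a : ℕ → Prop) (i : ℕ) : Prop := i = 1 ∨ ∃ k, i = k + 2 ∧ a k

/-- `v` is the parent of `u` -/
def Par (D : J → Prop) (l : J → ℕ → Prop) (u v : J × ℕ × Bool) : Prop :=
  ∃ i, D u.1 ∧ v = (u.1, i, false) ∧ (u.2 = (i + 1, false) ∨ (u.2 = (i, true) ∧ lab (l u.1) i))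

/-- the caterpillar forest -/
def cat (D : J → Prop) (l : J → ℕ → Prop) : SimpleGraph (J × ℕ × Bool) where
  Adj u v := Par D l u v ∨ Par D l v u
  symm := ⟨fun _ _ => Or.symm⟩
  loopless := ⟨by
    rintro ⟨j, n, b⟩ h
    simp only [or_self, Par, Prod.mk.injEq] at h
    grind⟩

lemma adj_iff {j j' : J} {n n' : ℕ} {b b' : Bool} : (cat D l).Adj (j, n, b) (j', n', b') ↔
    D j ∧ j' = j ∧ ((b = false ∧ b' = false ∧ (n = n' + 1 ∨ n' = n + 1)) ∨
      (n' = n ∧ b' = !b ∧ lab (l j) n)) := by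
  constructor
  · rintro (⟨i, h⟩ | ⟨i, h⟩) <;> simp only [Prod.mk.injEq] at h <;> grind
  · rintro ⟨d, rfl, ⟨rfl, rfl, rfl | rfl⟩ | ⟨rfl, rfl, h⟩⟩
    · exact .inl ⟨_, d, rfl, .inl rfl⟩
    · exact .inr ⟨_, d, rfl, .inl rfl⟩
    · cases b
      · exact .inr ⟨_, d, rfl, .inr ⟨rfl, h⟩⟩
      · exact .inl ⟨_, d, rfl, .inr ⟨rfl, h⟩⟩

lemma cat_acyclic : (cat D l).IsAcyclic := by
  have k : ∀ u v, Par D l u v → (cat D l).IsBridge s(u, v) := by
    rintro ⟨j, n, b⟩ v ⟨i, d, rfl, h⟩ r
    have : ∀ w, Relation.ReflTransGen ((cat D l).deleteEdges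
        {s((j, n, b), (j, i, false))}).Adj (j, n, b) w →
        w.1 = j ∧ n ≤ w.2.1 ∧ (b = true → w = (j, n, b)) := by
      intro w t
      induction t with
      | refl => simp
      | @tail x y _ a ih =>
        obtain ⟨xj, xn, xb⟩ := x
        obtain ⟨yj, yn, yb⟩ := y
        simp only [deleteEdges_adj, adj_iff, mem_singleton_iff, Sym2.eq_iff, Prod.mk.injEq] at *
        grind
    have := this _ ((reachable_iff_reflTransGen _ _).1 r)
    simp only [Prod.mk.injEq] at *
    grind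
  refine isAcyclic_iff_forall_adj_isBridge.2 fun u v h => h.elim (k u v) fun t => ?_
  rw [Sym2.eq_swap]
  exact k v u t

lemma cat_deg (u : J × ℕ × Bool) : ((cat D l).neighborSet u).encard ≤ 3 := by
  obtain ⟨j, n, b⟩ := u
  have : (cat D l).neighborSet (j, n, b) ⊆ {(j, n - 1, false), (j, n + 1, false), (j, n, !b)} := by
    rintro ⟨j', n', b'⟩ h
    simp only [mem_neighborSet, adj_iff, mem_insert_iff, mem_singleton_iff, Prod.mk.injEq] at *
    grind
  refine (encard_le_encard this).trans ((encard_insert_le _ _).trans ?_)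
  refine (add_le_add_left (encard_insert_le _ _) _).trans ?_
  rw [encard_singleton]
  rfl

open Classical in
/-- the root of the component -/
noncomputable def root (D : J → Prop) (l : J → ℕ → Prop) (u : J × ℕ × Bool) : J × ℕ × Bool :=
  if D u.1 ∧ (u.2.2 = false ∨ lab (l u.1) u.2.1) then (u.1, 0, false) else u

lemma cat_reach {u v : J × ℕ × Bool} : (cat D l).Reachable u v ↔ root D l u = root D l v := by
  have s : ∀ j n, D j → (cat D l).Reachable (j, n, false) (j, 0, false) := fun j n d => by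
    induction n with
    | zero => rfl
    | succ n ih => exact (Adj.reachable (adj_iff.2 (by simp [d]))).trans ih
  have r : ∀ u, (cat D l).Reachable u (root D l u) := by
    rintro ⟨j, n, b⟩
    unfold root
    split_ifs with h
    · cases b
      · exact s j n h.1
      · exact (Adj.reachable (adj_iff.2 (by simpa using h))).trans (s j n h.1)
    · rfl
  refine ⟨fun h => ?_, fun h => (r u).trans (h ▸ (r v).symm)⟩
  induction (reachable_iff_reflTransGen _ _).1 h with
  | refl => rfl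
  | @tail x y t a ih =>
    rw [ih ((reachable_iff_reflTransGen _ _).2 t)]
    obtain ⟨xj, xn, xb⟩ := x
    obtain ⟨yj, yn, yb⟩ := y
    simp only [adj_iff, root] at *
    grind

/-- vertices of degree one -/
def Lf {V : Type} (G : SimpleGraph V) (v : V) : Prop := ∃ w, ∀ x, G.Adj v x ↔ x = w

lemma lf_map {V : Type} {G H : SimpleGraph V} (φ : G ≃g H) {v : V} : Lf H (φ v) ↔ Lf G v := by
  refine ⟨fun ⟨w, h⟩ => ⟨φ.symm w, fun x => ?_⟩, fun ⟨w, h⟩ => ⟨φ w, fun x => ?_⟩⟩
  · rw [← φ.map_adj_iff, h]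
    exact φ.toEquiv.eq_symm_apply.symm
  · obtain ⟨x, rfl⟩ := φ.surjective x
    rw [φ.map_adj_iff, h, φ.injective.eq_iff]

lemma lf_iff {j : J} {n : ℕ} {b : Bool} : Lf (cat D l) (j, n, b) ↔
    D j ∧ ((b = false ∧ n = 0) ∨ (b = true ∧ lab (l j) n)) := by
  constructor
  · rintro ⟨⟨j', n', b'⟩, h⟩
    have a := (h _).2 rfl
    have c := (h (j, n + 1, false)).1
    have e := (h (j, n - 1, false)).1
    simp only [adj_iff, Prod.mk.injEq] at *
    grind
  · rintro ⟨d, ⟨rfl, rfl⟩ | ⟨rfl, t⟩⟩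
    · refine ⟨(j, 1, false), fun ⟨j', n', b'⟩ => ?_⟩
      simp only [adj_iff, Prod.mk.injEq, lab]
      grind
    · refine ⟨(j, n, false), fun ⟨j', n', b'⟩ => ?_⟩
      simp only [adj_iff, Prod.mk.injEq]
      grind

/-- isomorphisms of caterpillar forests preserve the labels of the components -/
theorem rigid (φ : cat D' l ≃g cat D l) {j : J} (d : D' j) :
    D (φ (j, 1, false)).1 ∧ ∀ k, l j k ↔ l (φ (j, 1, false)).1 k := by
  have A : ∀ {u v}, (cat D' l).Adj u v → (cat D l).Adj (φ u) (φ v) := φ.map_adj_iff.2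
  obtain ⟨j', d', e⟩ : ∃ j', D j' ∧ φ (j, 1, false) = (j', 1, false) := by
    have a1 := A (u := (j, 1, false)) (v := (j, 0, false)) (adj_iff.2 (by simp [d]))
    have a2 := A (u := (j, 1, false)) (v := (j, 1, true)) (adj_iff.2 (by simp [d, lab]))
    have a3 := (lf_map φ (v := (j, 0, false))).2 (lf_iff.2 (by simp [d]))
    have a4 := (lf_map φ (v := (j, 1, true))).2 (lf_iff.2 (by simp [d, lab]))
    have a5 : φ (j, 0, false) ≠ φ (j, 1, true) := φ.injective.ne (by simp)
    generalize φ (j, 1, false) = x, φ (j, 0, false) = y, φ (j, 1, true) = z at *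
    obtain ⟨xj, xn, xb⟩ := x
    obtain ⟨yj, yn, yb⟩ := y
    obtain ⟨zj, zn, zb⟩ := z
    refine ⟨xj, ?_⟩
    simp only [adj_iff, lf_iff, ne_eq, Prod.mk.injEq] at *
    grind
  have s : ∀ i, φ (j, i + 1, false) = (j', i + 1, false) ∧ φ (j, i + 2, false) ≠ (j', i, false) := by
    intro i
    induction i with
    | zero =>
      refine ⟨e, fun h => ?_⟩
      have := lf_map φ (v := (j, 2, false))
      rw [h] at this
      simp [lf_iff, d'] at this
    | succ i ih =>
      refine ⟨?_, fun h => by simpa using φ.injective (h.trans ih.1.symm)⟩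
      have a1 := A (u := (j, i + 1, false)) (v := (j, i + 2, false)) (adj_iff.2 (by simp [d]))
      have a2 := lf_map φ (v := (j, i + 2, false))
      obtain ⟨a3, a4⟩ := ih
      rw [a3] at a1
      generalize φ (j, i + 2, false) = x at *
      obtain ⟨xj, xn, xb⟩ := x
      simp only [adj_iff, lf_iff, ne_eq, Prod.mk.injEq] at *
      grind
  have o : ∀ (E : J → Prop) j k, E j → (l j k ↔
      ∃ a, (cat E l).Adj (j, k + 1 + 1, false) a ∧ Lf (cat E l) a) := fun E j k t => by
    refine ⟨fun h => ⟨(j, k + 2, true), adj_iff.2 (by simp [t, lab, h]),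
      lf_iff.2 (by simp [t, lab, h])⟩, fun ⟨⟨xj, xn, xb⟩, h⟩ => ?_⟩
    simp only [adj_iff, lf_iff, lab] at h
    grind
  rw [e]
  refine ⟨d', fun k => ?_⟩
  rw [o D' j k d, o D j' k d', ← (s (k + 1)).1]
  exact .trans (exists_congr fun a => and_congr φ.map_adj_iff.symm (lf_map φ).symm)
    (φ.surjective.exists (p := fun a => (cat D l).Adj _ a ∧ Lf (cat D l) a)).symm

/-- a label preserving bijection gives an isomorphism -/
def catIso (ψ : J ≃ J) (h : ∀ j, D (ψ j) ↔ D' j) (h' : ∀ j, l (ψ j) = l j) :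
    cat D' l ≃g cat D l where
  toEquiv := ψ.prodCongr (.refl _)
  map_rel_iff' := by
    rintro ⟨j, n, b⟩ ⟨j', n', b'⟩
    simp [adj_iff, h, h']

end Pool.Agent.Lib.BIso
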