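import Pool.Agent.Lib.MP_389802_lc.Defs

/-!
Borel codes: existence, valuations, coanalytic predicates.
-/

set_option autoImplicit false

namespace Pool.Agent.Lib.BIso

open Set MeasureTheory MeasurableSpace

lemma bas_meas (k : ℕ) : MeasurableSet (bas k) := by
  unfold bas
  split_ifs <;> exact measurableSet_eq_fun (by fun_prop) measurable_const

lemma bas_fst (n m : ℕ) : bas (2 * n.pair m) = {p | p.1 n = m} := by simp [bas]

lemma bas_snd (n m : ℕ) : bas (2 * n.pair m + 1) = {p | p.2 n = m} := by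
  have a : (2 * n.pair m + 1) / 2 = n.pair m := by omega
  simp [bas, a]

lemma bas_gen : (inferInstance : MeasurableSpace (X × X)) = generateFrom (range bas) := by
  refine le_antisymm ?_ (generateFrom_le (forall_mem_range.2 bas_meas))
  have h1 : Measurable[generateFrom (range bas)] (Prod.fst : X × X → X) :=
    (@measurable_pi_iff _ _ _ (generateFrom (range bas))).2 fun n =>
      @measurable_to_countable' _ _ _ _ (generateFrom (range bas)) _ fun m =>
        measurableSet_generateFrom ⟨_, bas_fst n m⟩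
  have h2 : Measurable[generateFrom (range bas)] (Prod.snd : X × X → X) :=
    (@measurable_pi_iff _ _ _ (generateFrom (range bas))).2 fun n =>
      @measurable_to_countable' _ _ _ _ (generateFrom (range bas)) _ fun m =>
        measurableSet_generateFrom ⟨_, bas_snd n m⟩
  exact h1.prodMk h2

lemma bas_inj {p q : X × X} (h : ∀ k, p ∈ bas k ↔ q ∈ bas k) : p = q :=
  Prod.ext (funext fun n => by simpa [bas_fst] using h (2 * n.pair (q.1 n)))
    (funext fun n => by simpa [bas_snd] using h (2 * n.pair (q.2 n) + 1))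

lemma Codes.meas {c : Code} {A : Set (X × X)} (h : Codes c A) : MeasurableSet A := by
  induction h with
  | leaf c k _ => exact bas_meas k
  | node c A _ _ ih => exact .iUnion fun i => (ih i).compl

lemma Codes.uniq {c : Code} {A B : Set (X × X)} (h : Codes c A) (h' : Codes c B) : A = B := by
  induction h generalizing B with
  | leaf c k e =>
    cases h' with
    | leaf _ l e' => rw [show k = l by omega]
    | node _ _ e' _ => omega
  | node c A e _ ih =>
    cases h' with
    | leaf _ l e' => omega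
    | node _ B _ t => exact iUnion_congr fun i => by rw [ih i (t i)]

/-- join codes at a new root -/
def graft (c : ℕ → Code) : Code
  | [] => 0
  | i :: s => c i s

/-- Borel families of Borel sets have Borel families of codes -/
theorem param {Z : Type} [MeasurableSpace Z] {F : Set (Z × X × X)} (hF : MeasurableSet F) :
    ∃ c : Z → Code, Measurable c ∧ ∀ z, Codes (c z) (Prod.mk z ⁻¹' F) := by
  classical
  let P : Set (Z × X × X) → Prop := fun F =>
    ∃ c : Z → Code, Measurable c ∧ ∀ z, Codes (c z) (Prod.mk z ⁻¹' F)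
  have nd : ∀ F : ℕ → Set (Z × X × X), (∀ i, P (F i)) → P (⋃ i, (F i)ᶜ) := fun F h => by
    choose c c1 c2 using h
    refine ⟨fun z => graft fun i => c i z, measurable_pi_lambda _ fun s => ?_, fun z => ?_⟩
    · cases s with
      | nil => exact measurable_const
      | cons i s => exact (measurable_pi_apply s).comp (c1 i)
    · rw [preimage_iUnion]
      exact .node _ (fun i => Prod.mk z ⁻¹' F i) rfl fun i => c2 i z
  have cp : ∀ F, P F → P Fᶜ := fun F h => by simpa only [iUnion_const] using nd _ fun _ => h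
  have lf : ∀ k, P (Prod.snd ⁻¹' bas k) := fun k =>
    ⟨fun _ _ => k + 1, measurable_const, fun z => .leaf _ k rfl⟩
  have em : P ∅ := by
    have := cp _ (nd (fun i => if i = 0 then Prod.snd ⁻¹' bas 0 else (Prod.snd ⁻¹' bas 0)ᶜ)
      fun i => by
        split_ifs
        · exact lf 0
        · exact cp _ (lf 0))
    convert this
    refine (compl_empty_iff.2 (eq_univ_of_forall fun z => mem_iUnion.2 ?_)).symm
    by_cases t : z.2 ∈ bas 0
    · exact ⟨1, by simpa using t⟩
    · exact ⟨0, by simpa using t⟩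
  have e : (inferInstance : MeasurableSpace (Z × X × X)) =
      generateFrom (image2 (· ×ˢ ·) {A : Set Z | MeasurableSet A} (range bas)) := by
    rw [← generateFrom_prod_eq isCountablySpanning_measurableSet ⟨fun m => bas (2 * Nat.pair 0 m),
      fun m => mem_range_self _, eq_univ_of_forall fun p => mem_iUnion.2 ⟨p.1 0, by simp [bas_fst]⟩⟩,
      generateFrom_measurableSet, ← bas_gen]
  refine generateFrom_induction _ (fun F _ => P F) ?_ em (fun F _ => cp F) (fun F _ h => ?_) F
    (e.le _ hF)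
  · rintro _ ⟨A, hA, _, ⟨k, rfl⟩, rfl⟩ -
    obtain ⟨c, c1, c2⟩ := em
    refine ⟨fun z => if z ∈ A then fun _ => k + 1 else c z, .ite hA measurable_const c1, fun z => ?_⟩
    by_cases t : z ∈ A
    · simpa [t, mk_preimage_prod_right t] using Codes.leaf (fun _ => k + 1) k rfl
    · simpa [t, mk_preimage_prod_right_eq_empty t] using c2 z
  · simpa only [compl_compl] using nd _ fun i => cp _ (h i)

lemma ex_code {A : Set (X × X)} (hA : MeasurableSet A) : ∃ c, Codes c A := by
  obtain ⟨c, -, h⟩ := param (Z := Unit) (measurable_snd hA)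
  exact ⟨c (), h ()⟩

/-- well founded codes -/
def Wf (c : Code) : Prop := ∃ A, Codes c A

/-- membership in the coded set -/
def Mem (c : Code) (p : X × X) : Prop := ∃ A, Codes c A ∧ p ∈ A

lemma Codes.mem {c : Code} {A : Set (X × X)} (h : Codes c A) {p : X × X} : Mem c p ↔ p ∈ A :=
  ⟨fun ⟨_, t, u⟩ => t.uniq h ▸ u, fun u => ⟨A, h, u⟩⟩

lemma wf_iff {c : Code} : Wf c ↔ (c [] = 0 → ∀ i, Wf fun s => c (i :: s)) := by
  refine ⟨fun ⟨A, h⟩ e i => ?_, fun h => ?_⟩
  · cases h with
    | leaf _ k e' => omega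
    | node _ A _ t => exact ⟨_, t i⟩
  · rcases Nat.eq_zero_or_eq_succ_pred (c []) with e | e
    · choose A hA using h e
      exact ⟨_, .node c A e hA⟩
    · exact ⟨_, .leaf c _ e⟩

lemma Wf.mem {c : Code} (h : Wf c) (p : X × X) : Mem c p ↔
    (c [] = 0 ∧ ∃ i, ¬ Mem (fun s => c (i :: s)) p) ∨ ∃ k, c [] = k + 1 ∧ p ∈ bas k := by
  obtain ⟨A, h⟩ := h
  rw [h.mem]
  cases h with
  | leaf _ k e => simp [e]
  | node _ A e t => simp [e, (t _).mem]

/-- the subtree at a node -/
def shift (c : Code) (s : List ℕ) : Code := fun t => c (s ++ t)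

lemma shift_snoc (c : Code) (s : List ℕ) (i : ℕ) :
    (fun t => shift c s (i :: t)) = shift c (s ++ [i]) := by
  funext t
  simp [shift]

lemma shift_nil (c : Code) (s : List ℕ) : shift c s [] = c s := by simp [shift]

@[fun_prop] lemma shift_meas (s : List ℕ) : Measurable fun c => shift c s :=
  measurable_pi_lambda _ fun _ => measurable_pi_apply _

/-- consistent valuation `V` on the domain `D` -/
def Cons (c : Code) (p : X × X) (D V : List ℕ → Prop) : Prop :=
  ∀ s, D s → (c s = 0 → ∀ i, D (s ++ [i])) ∧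
    (V s ↔ (c s = 0 ∧ ∃ i, ¬ V (s ++ [i])) ∨ ∃ k, c s = k + 1 ∧ p ∈ bas k)

@[fun_prop] lemma meas_bas {Z : Type} [MeasurableSpace Z] {p : Z → X × X} (hp : Measurable p)
    (k : ℕ) : Measurable fun z => p z ∈ bas k := (measurable_mem.2 (bas_meas k)).comp hp

@[fun_prop] lemma meas_cons {Z : Type} [MeasurableSpace Z] {c : Z → Code} {p : Z → X × X}
    {D V : Z → List ℕ → Prop} (hc : Measurable c) (hp : Measurable p) (hD : Measurable D)
    (hV : Measurable V) : Measurable fun z => Cons (c z) (p z) (D z) (V z) := by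
  unfold Cons
  fun_prop

lemma Codes.sound {c : Code} {A : Set (X × X)} (h : Codes c A) {p : X × X} {D V : List ℕ → Prop}
    (hv : Cons c p D V) (h0 : D []) : V [] ↔ p ∈ A := by
  induction h generalizing D V with
  | leaf c k e => simpa [e] using (hv [] h0).2
  | node c A e _ ih =>
    have := fun i => ih i (D := fun s => D (i :: s)) (V := fun s => V (i :: s))
      (fun s => hv (i :: s)) ((hv [] h0).1 e i)
    simpa [e, this] using (hv [] h0).2

lemma cons_mem {c : Code} (p : X × X) {D : List ℕ → Prop} (h1 : ∀ s, D s → Wf (shift c s))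
    (h2 : ∀ s, D s → c s = 0 → ∀ i, D (s ++ [i])) :
    Cons c p D fun s => D s ∧ Mem (shift c s) p := fun s hs => ⟨h2 s hs, by
  beta_reduce
  rw [(h1 s hs).mem, and_iff_right hs, shift_nil]
  refine or_congr_left (and_congr_right fun e => exists_congr fun i => ?_)
  rw [shift_snoc, and_iff_right (h2 s hs e i)]⟩

lemma Wf.ex_val {c : Code} (h : Wf c) (p : X × X) : ∃ D V, Cons c p D V ∧ D [] :=
  ⟨_, _, cons_mem p (D := fun s => Wf (shift c s)) (fun _ t => t) fun s t e i =>
    shift_snoc c s i ▸ wf_iff.1 t ((shift_nil c s).trans e) i, h⟩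

/-- the first `n` values -/
def pre (z : X) (n : ℕ) : List ℕ := List.ofFn fun i : Fin n => z i

lemma pre_succ (z : X) (n : ℕ) : pre z (n + 1) = pre z n ++ [z n] := by
  simp [pre, List.ofFn_succ_last, -List.ofFn_succ]

lemma branch (Q : List ℕ → Prop) (h0 : Q []) (h : ∀ s, Q s → ∃ i, Q (s ++ [i])) :
    ∃ z, ∀ n, Q (pre z n) := by
  choose! g hg using h
  let s : ℕ → List ℕ := Nat.rec [] fun _ s => s ++ [g s]
  have e : ∀ n, pre (fun n => g (s n)) n = s n := fun n => by
    induction n with
    | zero => rfl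
    | succ n ih => rw [pre_succ, ih]
  refine ⟨fun n => g (s n), fun n => ?_⟩
  rw [e]
  induction n with
  | zero => exact h0
  | succ n ih => exact hg _ ih

lemma wf_iff_br {c : Code} : Wf c ↔ ∀ z, ∃ n, c (pre z n) ≠ 0 := by
  refine ⟨fun h => ?_, fun h => by_contra fun n => ?_⟩
  · obtain ⟨A, h⟩ := h
    induction h with
    | leaf c k e => exact fun z => ⟨0, by simp [pre, e]⟩
    | node c A e _ ih =>
      intro z
      obtain ⟨n, hn⟩ := ih (z 0) fun n => z (n + 1)
      exact ⟨n + 1, by simpa [pre] using hn⟩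
  · obtain ⟨z, hz⟩ := branch (fun s => ¬ Wf (shift c s)) n fun s t => by
      simp only [← shift_snoc]
      exact not_forall.1 fun u => t (wf_iff.2 fun _ => u)
    obtain ⟨m, hm⟩ := h z
    exact hz m (wf_iff.2 fun e => (hm ((shift_nil c _).symm.trans e)).elim)

lemma meas_pre {Z : Type} [MeasurableSpace Z] {c : Z → List ℕ → Prop} {z : Z → X}
    (hc : Measurable c) (hz : Measurable z) (n : ℕ) : Measurable fun a => c a (pre (z a) n) := by
  have : (fun a => c a (pre (z a) n)) =
      fun a => ∃ s : Fin n → ℕ, (∀ i : Fin n, z a i = s i) ∧ c a (List.ofFn s) := by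
    funext a
    refine propext ⟨fun h => ⟨_, fun _ => rfl, h⟩, fun ⟨s, h1, h2⟩ => ?_⟩
    rwa [pre, funext h1]
  rw [this]
  fun_prop

lemma ex_surj (Y : Type) [MeasurableSpace Y] [StandardBorelSpace Y] [Nonempty Y] :
    ∃ f : X → Y, Measurable f ∧ Function.Surjective f := by
  let _ := upgradeStandardBorel Y
  obtain ⟨f, h1, h2⟩ := PolishSpace.exists_nat_nat_continuous_surjective Y
  exact ⟨f, h1.measurable, h2⟩

/-- coanalytic predicates -/
def CoA {Z : Type} [MeasurableSpace Z] (Q : Z → Prop) : Prop :=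
  ∃ R : Z × X → Prop, Measurable R ∧ ∀ a, Q a ↔ ∀ b, R (a, b)

namespace CoA

variable {Z : Type} [MeasurableSpace Z] {P Q : Z → Prop}

lemma mk' {Y : Type} [MeasurableSpace Y] [StandardBorelSpace Y] [Nonempty Y] (R : Z × Y → Prop)
    (hR : Measurable R) (h : ∀ a, Q a ↔ ∀ b, R (a, b)) : CoA Q := by
  obtain ⟨f, h1, h2⟩ := ex_surj Y
  exact ⟨fun u => R (u.1, f u.2), by fun_prop, fun a => (h a).trans h2.forall⟩

lemma of (h : Measurable Q) : CoA Q := ⟨fun u => Q u.1, by fun_prop, by simp⟩

lemma comp {W : Type} [MeasurableSpace W] (h : CoA Q) {f : W → Z} (hf : Measurable f) :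
    CoA fun w => Q (f w) := by
  obtain ⟨R, h1, h2⟩ := h
  exact ⟨fun u => R (f u.1, u.2), by fun_prop, fun a => h2 _⟩

lemma and (h : CoA P) (h' : CoA Q) : CoA fun a => P a ∧ Q a := by
  obtain ⟨R, h1, h2⟩ := h
  obtain ⟨S, h3, h4⟩ := h'
  exact ⟨fun u => R u ∧ S u, by fun_prop, fun a => by simp only [h2, h4, forall_and]⟩

lemma or (h : CoA P) (h' : CoA Q) : CoA fun a => P a ∨ Q a := by
  obtain ⟨R, h1, h2⟩ := h
  obtain ⟨S, h3, h4⟩ := h'
  exact mk' (fun u : Z × X × X => R (u.1, u.2.1) ∨ S (u.1, u.2.2)) (by fun_prop) fun a => by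
    simp only [h2, h4, Prod.forall, forall_or_left, forall_or_right]

lemma all {Y : Type} [MeasurableSpace Y] [StandardBorelSpace Y] [Nonempty Y] {Q : Z → Y → Prop}
    (h : CoA fun u : Z × Y => Q u.1 u.2) : CoA fun a => ∀ y, Q a y := by
  obtain ⟨R, h1, h2⟩ := h
  exact mk' (fun u : Z × Y × X => R ((u.1, u.2.1), u.2.2)) (by fun_prop) fun a => by
    simp only [Prod.forall]
    exact forall_congr' fun y => h2 (a, y)

lemma allN {Q : Z → ℕ → Prop} (h : ∀ n, CoA fun a => Q a n) : CoA fun a => ∀ n, Q a n := by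
  choose R h1 h2 using h
  exact ⟨fun u => ∀ n, R n u, by fun_prop, fun a => by simp only [h2]; exact forall_comm⟩

lemma exN {Q : Z → ℕ → Prop} (h : ∀ n, CoA fun a => Q a n) : CoA fun a => ∃ n, Q a n := by
  choose R h1 h2 using h
  refine mk' (fun u : Z × (ℕ → X) => ∃ n, R n (u.1, u.2 n)) (by fun_prop) fun a => ?_
  simp only [h2]
  refine ⟨fun ⟨n, t⟩ b => ⟨n, t _⟩, fun t => by_contra fun u => ?_⟩
  push Not at u
  choose b hb using u
  exact (t b).elim hb

end CoA

/-- membership, coanalytic form -/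
def In (c : Code) (p : X × X) : Prop := ∀ D V, Cons c p D V → D [] → V []

/-- non-membership, coanalytic form -/
def Out (c : Code) (p : X × X) : Prop := ∀ D V, Cons c p D V → D [] → ¬ V []

lemma Codes.in_iff {c : Code} {A : Set (X × X)} (h : Codes c A) {p : X × X} : In c p ↔ p ∈ A := by
  obtain ⟨D, V, h1, h2⟩ := Wf.ex_val ⟨A, h⟩ p
  exact ⟨fun t => (h.sound h1 h2).1 (t D V h1 h2), fun t D V a b => (h.sound a b).2 t⟩

lemma Codes.out_iff {c : Code} {A : Set (X × X)} (h : Codes c A) {p : X × X} :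
    Out c p ↔ p ∉ A := by
  obtain ⟨D, V, h1, h2⟩ := Wf.ex_val ⟨A, h⟩ p
  exact ⟨fun t u => t D V h1 h2 ((h.sound h1 h2).2 u), fun t D V a b u => t ((h.sound a b).1 u)⟩

section
variable {Z : Type} [MeasurableSpace Z] {c : Z → Code} {p : Z → X × X}

lemma coa_in (hc : Measurable c) (hp : Measurable p) : CoA fun z => In (c z) (p z) :=
  .mk' (fun u : Z × (List ℕ → Prop) × (List ℕ → Prop) =>
    Cons (c u.1) (p u.1) u.2.1 u.2.2 → u.2.1 [] → u.2.2 []) (by fun_prop) fun a => by simp [In]

lemma coa_out (hc : Measurable c) (hp : Measurable p) : CoA fun z => Out (c z) (p z) :=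
  .mk' (fun u : Z × (List ℕ → Prop) × (List ℕ → Prop) =>
    Cons (c u.1) (p u.1) u.2.1 u.2.2 → u.2.1 [] → ¬ u.2.2 []) (by fun_prop) fun a => by simp [Out]

lemma coa_wf (hc : Measurable c) : CoA fun z => Wf (c z) :=
  ⟨fun u => ∃ n, c u.1 (pre u.2 n) ≠ 0, .exists fun n =>
    meas_pre (c := fun (u : Z × X) s => c u.1 s ≠ 0) (by fun_prop) measurable_snd n,
    fun _ => wf_iff_br⟩

end

end Pool.Agent.Lib.BIso
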