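import Mathlib

/-!
Borel codes, Borel isomorphism of Borel graphs on the Baire space, the class `Σ¹₂`.
-/

set_option autoImplicit false

namespace Pool.Agent.Lib.BIso

open Set MeasureTheory

/-- the Baire space -/
abbrev X : Type := ℕ → ℕ

/-- the Polish space of labelled trees -/
abbrev Code : Type := List ℕ → ℕ

/-- the subbasic clopen subsets of `X × X` -/
def bas (k : ℕ) : Set (X × X) :=
  {p | (if k % 2 = 0 then p.1 else p.2) (k / 2).unpair.1 = (k / 2).unpair.2}

/-- `c` is a Borel code of `A` -/
inductive Codes : Code → Set (X × X) → Prop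
  | leaf (c : Code) (k : ℕ) : c [] = k + 1 → Codes c (bas k)
  | node (c : Code) (A : ℕ → Set (X × X)) : c [] = 0 →
      (∀ i, Codes (fun s => c (i :: s)) (A i)) → Codes c (⋃ i, (A i)ᶜ)

/-- `c` is a Borel code of the edge relation of `G` -/
def CodesG (c : Code) (G : SimpleGraph X) : Prop := Codes c {p | G.Adj p.1 p.2}

/-- pairs of codes of Borel isomorphic Borel graphs -/
def IsoB : Set (Code × Code) :=
  {q | ∃ G H : SimpleGraph X, CodesG q.1 G ∧ CodesG q.2 H ∧ ∃ f : G ≃g H, Measurable f}

/-- projections of coanalytic sets -/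
def Sigma12 {Y : Type} [TopologicalSpace Y] (S : Set Y) : Prop :=
  ∃ A : Set (Y × X), AnalyticSet A ∧ S = {y | ∃ x, (y, x) ∉ A}

/-- acyclic, of maximum degree at most three, with smooth connectedness relation -/
def Nice (G : SimpleGraph X) : Prop :=
  G.IsAcyclic ∧ (∀ v, (G.neighborSet v).encard ≤ 3) ∧
    ∃ r : X → X, Measurable r ∧ ∀ u v, G.Reachable u v ↔ r u = r v

end Pool.Agent.Lib.BIso
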