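import Pool.Agent.Lib.MP_389802_lc.Unif
import Pool.Agent.Lib.MP_389802_lc.Cat

/-!
One Borel isomorphism class of smooth acyclic graphs of degree at most three is `Σ¹₂`-hard.
-/

set_option autoImplicit false

namespace Pool.Agent.Lib.BIso

open Set MeasureTheory SimpleGraph

/-- countable index set of the swindle -/
abbrev I : Type := Bool × ℕ × Bool

/-- the fibres -/
abbrev K : Type := (ℕ → W) × ℕ × Bool

/-- the components -/
abbrev J : Type := (X × X) × K

instance sbJ : StandardBorelSpace J := inferInstance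

instance sbV : StandardBorelSpace (J × ℕ × Bool) := .prod

/-- the permutation of the swindle -/
def pm (z : I) : I :=
  if z.2.2 then (true, Nat.bit z.1 z.2.1, true) else if z.1 then z
  else (false, z.2.1.div2, z.2.1.bodd)

/-- its inverse -/
def pm' (z : I) : I :=
  if z.1 then (if z.2.2 then (z.2.1.bodd, z.2.1.div2, true) else z)
  else (false, Nat.bit z.2.2 z.2.1, false)

lemma pm_pm' (z : I) : pm (pm' z) = z := by
  obtain ⟨b, n, s⟩ := z
  cases b <;> cases s <;> simp [pm, pm', Nat.bit_bodd_div2]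

lemma pm'_pm (z : I) : pm' (pm z) = z := by
  obtain ⟨b, n, s⟩ := z
  cases b <;> cases s <;> simp [pm, pm', Nat.bit_bodd_div2]

lemma pm_in (z : I) : ((pm z).1 = true ∧ (pm z).2.2 = true) ↔ z.2.2 = true := by
  obtain ⟨b, n, s⟩ := z
  cases b <;> cases s <;> simp [pm]

/-- two copies of a part of the fibre -/
def enc (a : W) (t : ℕ → W) (z : I) : K := (if z.1 then fun n => Nat.casesOn n a t else t, z.2)

open Classical in
/-- the action of a map of the index set -/
noncomputable def Psi (N : W → Prop) (a : W) (π : I → I) (u : K) : K :=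
  if N (u.1 0) then enc a u.1 (π (false, u.2))
  else if u.1 0 = a ∧ N (u.1 1) then enc a (fun n => u.1 (n + 1)) (π (true, u.2)) else u

section
variable {N : W → Prop} {a : W}

lemma psi_enc (ha : ¬ N a) {t : ℕ → W} (ht : N (t 0)) (π : I → I) (z : I) :
    Psi N a π (enc a t z) = enc a t (π z) := by
  obtain ⟨b, z⟩ := z
  cases b
  · simp [Psi, enc, ht]
  · simp [Psi, enc, ht, ha]

lemma psi_cases (N : W → Prop) (a : W) (u : K) :
    (∃ t z, N (t 0) ∧ u = enc a t z) ∨ (¬ N (u.1 0) ∧ ∀ π, Psi N a π u = u) := by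
  by_cases h : N (u.1 0)
  · exact .inl ⟨u.1, (false, u.2), h, rfl⟩
  by_cases h' : u.1 0 = a ∧ N (u.1 1)
  · refine .inl ⟨fun n => u.1 (n + 1), (true, u.2), h'.2, Prod.ext (funext fun n => ?_) rfl⟩
    cases n
    · exact h'.1
    · rfl
  · exact .inr ⟨h, fun π => by rw [Psi, if_neg h, if_neg h']⟩

lemma psi_inv (ha : ¬ N a) {π ρ : I → I} (h : ∀ z, ρ (π z) = z) (u : K) :
    Psi N a ρ (Psi N a π u) = u := by
  rcases psi_cases N a u with ⟨t, z, ht, rfl⟩ | ⟨-, e⟩
  · rw [psi_enc ha ht, psi_enc ha ht, h]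
  · rw [e, e]

lemma psi_in (ha : ¬ N a) (u : K) :
    (¬ N ((Psi N a pm u).1 0) ∧ (Psi N a pm u).2.2 = true) ↔ u.2.2 = true := by
  rcases psi_cases N a u with ⟨t, z, ht, rfl⟩ | ⟨n, e⟩
  · rw [psi_enc ha ht]
    refine .trans (and_congr_left' ?_) (pm_in z)
    cases h : (pm z).1 <;> simp [enc, h, ht, ha]
  · rw [e, and_iff_right n]

end

@[fun_prop] lemma enc_meas {Z : Type} [MeasurableSpace Z] {a : Z → W} {t : Z → ℕ → W} {z : Z → I}
    (ha : Measurable a) (ht : Measurable t) (hz : Measurable z) :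
    Measurable fun x => enc (a x) (t x) (z x) := by
  refine .prodMk (.ite (Measurable.setOf (by fun_prop)) (measurable_pi_lambda _ fun n => ?_) ht)
    hz.snd
  cases n
  · exact ha
  · exact (measurable_pi_apply _).comp ht

lemma psi_meas {N : (X × X) × W → Prop} {a : X × X → W} (hN : Measurable N) (ha : Measurable a) :
    Measurable fun j : J => Psi (fun w => N (j.1, w)) (a j.1) pm j.2 := by
  have := measurable_of_countable pm
  exact .ite (Measurable.setOf (by fun_prop)) (by fun_prop)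
    (.ite (Measurable.setOf (by fun_prop)) (by fun_prop) measurable_snd)

/-- the label of a component -/
def lb (j : J) (k : ℕ) : Prop := j.1 ∈ bas k

theorem iso_iff {C : (X × X) × W → Prop} (hC : Measurable C) :
    (∃ f : X × X → W, Measurable f ∧ ∀ p, C (p, f p)) ↔
    ∃ φ : cat (fun j : J => j.2.2.2 = true) lb ≃g
      cat (fun j : J => C (j.1, j.2.1 0) ∧ j.2.2.2 = true) lb, Measurable φ := by
  refine ⟨fun ⟨f, f1, f2⟩ => ?_, fun ⟨φ, h⟩ => ?_⟩
  · have n : ∀ p, ¬ ¬ C (p, f p) := fun p => not_not.2 (f2 p)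
    refine ⟨catIso ⟨fun j => (j.1, Psi (fun w => ¬ C (j.1, w)) (f j.1) pm j.2),
      fun j => (j.1, Psi (fun w => ¬ C (j.1, w)) (f j.1) pm' j.2),
      fun j => Prod.ext rfl (psi_inv (N := fun w => ¬ C (j.1, w)) (n _) pm'_pm j.2),
      fun j => Prod.ext rfl (psi_inv (N := fun w => ¬ C (j.1, w)) (n _) pm_pm' j.2)⟩
      (fun j => ?_) fun j => rfl, ?_⟩
    · simpa using psi_in (N := fun w => ¬ C (j.1, w)) (n j.1) j.2
    · exact ((measurable_fst.prodMk (psi_meas hC.not f1)).comp measurable_fst).prodMk measurable_snd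
  · refine ⟨fun p => (φ ((p, default, 0, true), 1, false)).1.2.1 0, by fun_prop, fun p => ?_⟩
    obtain ⟨a, b⟩ := rigid φ (j := (p, default, 0, true)) rfl
    have : p = _ := bas_inj b
    convert a.1

lemma nice (e : X ≃ᵐ J × ℕ × Bool) {D : J → Prop} (hD : Measurable D) :
    Nice ((cat D lb).comap e) := by
  let φ := Iso.comap e.toEquiv (cat D lb)
  have r : Measurable (root D lb) := by
    unfold root lab lb
    exact .ite (Measurable.setOf (by fun_prop)) (by fun_prop) measurable_id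
  refine ⟨φ.isAcyclic_iff.2 cat_acyclic, fun v => (encard_congr (φ.mapNeighborSet v)).trans_le
    (cat_deg _), fun u => e.symm (root D lb (e u)), e.symm.measurable.comp (r.comp e.measurable),
    fun u v => ?_⟩
  rw [e.symm.injective.eq_iff]
  exact (Iso.reachable_iff (φ := φ)).symm.trans cat_reach

lemma fam (e : X ≃ᵐ J × ℕ × Bool) {D : X × J → Prop} (hD : Measurable D) :
    ∃ c : X → Code, Measurable c ∧ ∀ x, CodesG (c x) ((cat (fun j => D (x, j)) lb).comap e) := by
  have := e.measurable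
  refine param (F := {u : X × X × X | (cat (fun j => D (u.1, j)) lb).Adj (e u.2.1) (e u.2.2)})
    (Measurable.setOf ?_)
  simp only [cat, Par, lab, lb]
  fun_prop

lemma CodesG.uniq {c : Code} {G H : SimpleGraph X} (h : CodesG c G) (h' : CodesG c H) : G = H := by
  ext u v
  exact Set.ext_iff.1 (Codes.uniq h h') (u, v)

lemma iso_comap (e : X ≃ᵐ J × ℕ × Bool) {G H : SimpleGraph (J × ℕ × Bool)} {c d : Code}
    (hc : CodesG c (G.comap e)) (hd : CodesG d (H.comap e)) :
    (c, d) ∈ IsoB ↔ ∃ φ : G ≃g H, Measurable φ := by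
  refine ⟨fun ⟨_, _, a, b, φ, h⟩ => ?_, fun ⟨φ, h⟩ => ⟨_, _, hc, hd,
    (Iso.comap e.toEquiv G).trans (φ.trans (Iso.comap e.toEquiv H).symm),
    e.symm.measurable.comp (h.comp e.measurable)⟩⟩
  obtain rfl := hc.uniq a
  obtain rfl := hd.uniq b
  exact ⟨(Iso.comap e.toEquiv G).symm.trans (φ.trans (Iso.comap e.toEquiv H)),
    e.measurable.comp (h.comp e.symm.measurable)⟩

theorem hard : ∃ d H, CodesG d H ∧ Nice H ∧ ∀ S : Set X, Sigma12 S → ∃ f : X → Code,
    Measurable f ∧ (∀ x, ∃ G, CodesG (f x) G ∧ Nice G) ∧ ∀ x, x ∈ S ↔ (d, f x) ∈ IsoB := by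
  obtain ⟨e⟩ : Nonempty (X ≃ᵐ J × ℕ × Bool) := ⟨PolishSpace.measurableEquivOfNotCountable
    (unc _ Function.surjective_id) (unc (fun v => v.1.1.1) fun x => ⟨(((x, x), default), default), rfl⟩)⟩
  obtain ⟨d, -, hd⟩ := fam e (D := fun u => u.2.2.2.2 = true) (by fun_prop)
  refine ⟨d default, _, hd default, nice e (by fun_prop), fun S hS => ?_⟩
  obtain ⟨C, c1, c2⟩ := unif hS
  obtain ⟨f, f1, f2⟩ := fam e (D := fun u => C (u.1, u.2.1, u.2.2.1 0) ∧ u.2.2.2.2 = true)
    (by fun_prop)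
  exact ⟨f, f1, fun x => ⟨_, f2 x, nice e (by fun_prop)⟩, fun x => (c2 x).trans
    ((iso_iff (C := fun u => C (x, u)) (by fun_prop)).trans (iso_comap e (hd _) (f2 x)).symm)⟩

end Pool.Agent.Lib.BIso
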