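import Pool.Agent.Lib.MP_389802_lc.Code

/-!
The existence of a full Borel uniformization is `Σ¹₂`-hard; the class `Σ¹₂` is not self-dual.
-/

set_option autoImplicit false

namespace Pool.Agent.Lib.BIso

open Set MeasureTheory Filter Topology

/-- projections of coanalytic predicates -/
def S2 {Z : Type} [MeasurableSpace Z] (Q : Z → Prop) : Prop :=
  ∃ R : Z × X → Prop, CoA R ∧ ∀ a, Q a ↔ ∃ x, R (a, x)

lemma S2.mk' {Z Y : Type} [MeasurableSpace Z] [MeasurableSpace Y] [StandardBorelSpace Y]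
    [Nonempty Y] {Q : Z → Prop} (R : Z × Y → Prop) (hR : CoA R) (h : ∀ a, Q a ↔ ∃ b, R (a, b)) :
    S2 Q := by
  obtain ⟨f, h1, h2⟩ := ex_surj Y
  exact ⟨fun u => R (u.1, f u.2), hR.comp (by fun_prop), fun a => (h a).trans h2.exists⟩

lemma S2.comp {Z W : Type} [MeasurableSpace Z] [MeasurableSpace W] {Q : Z → Prop} (h : S2 Q)
    {f : W → Z} (hf : Measurable f) : S2 fun w => Q (f w) := by
  obtain ⟨R, h1, h2⟩ := h
  exact ⟨fun u => R (f u.1, u.2), h1.comp (by fun_prop), fun a => h2 _⟩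

lemma sigma_iff {Y : Type} [TopologicalSpace Y] [PolishSpace Y] [MeasurableSpace Y] [BorelSpace Y]
    {S : Set Y} : Sigma12 S ↔ S2 (· ∈ S) := by
  constructor
  · rintro ⟨A, hA, rfl⟩
    refine ⟨fun u => u ∉ A, ?_, fun a => Iff.rfl⟩
    rw [AnalyticSet] at hA
    rcases hA with rfl | ⟨φ, h, rfl⟩
    · exact .of (by simp)
    · exact ⟨fun u => ¬ φ u.2 = u.1, ((h.measurable.comp measurable_snd).eq measurable_fst).not,
        fun a => by simp⟩
  · rintro ⟨R, ⟨T, h1, h2⟩, h3⟩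
    refine ⟨Prod.fst '' {w | ¬ T w}, h1.not.setOf.analyticSet_image measurable_fst, ?_⟩
    ext y
    simp [h3, h2]

lemma unc {Y : Type} (f : Y → X) (hf : Function.Surjective f) : ¬ Countable Y := fun _ => by
  obtain ⟨g, hg⟩ := @exists_surjective_nat X _ hf.countable
  obtain ⟨n, hn⟩ := hg fun n => g n n + 1
  have := congrFun hn n
  omega

/-- the class is not closed under complements -/
theorem not_dual : ∃ U : Set X, Sigma12 U ∧ ¬ S2 (· ∉ U) := by
  obtain ⟨κ, k1, k2⟩ := ex_surj Code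
  obtain ⟨e⟩ : Nonempty (X × X ≃ᵐ X) := ⟨PolishSpace.measurableEquivOfNotCountable
    (unc _ Prod.fst_surjective) (unc _ Function.surjective_id)⟩
  refine ⟨{x | ∃ y, ∀ z, In (κ x) (x, e (y, z))}, sigma_iff.2 ⟨fun u => ∀ z, In (κ u.1)
    (u.1, e (u.2, z)), .all (coa_in (by fun_prop) (by fun_prop)), fun _ => Iff.rfl⟩, ?_⟩
  rintro ⟨R, ⟨T, h1, h2⟩, h3⟩
  obtain ⟨c, hc⟩ := ex_code (A := {p | T ((p.1, (e.symm p.2).1), (e.symm p.2).2)})
    (Measurable.setOf (by fun_prop))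
  obtain ⟨x, rfl⟩ := k2 c
  have := h3 x
  simp [hc.in_iff, h2] at this
  exact not_iff_self (by simpa only [← not_forall, ← not_exists] using this)

lemma pre_eq {z w : X} {n : ℕ} : pre z n = pre w n ↔ ∀ i < n, z i = w i :=
  List.ofFn_inj.trans ⟨fun h i hi => congrFun h ⟨i, hi⟩, fun h => funext fun i => h i i.2⟩

lemma pre_len (z : X) (n : ℕ) : (pre z n).length = n := by simp [pre]

/-- tree representation of analytic sets -/
lemma tree {A : Set (X × X)} (hA : AnalyticSet A) : ∃ T : X × X → List ℕ → Prop, Measurable T ∧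
    ∀ q, q ∈ A ↔ ∃ z, ∀ n, T q (pre z n) := by
  rw [AnalyticSet] at hA
  rcases hA with rfl | ⟨φ, h, rfl⟩
  · exact ⟨fun _ _ => False, measurable_const, by simp⟩
  refine ⟨fun q σ => ∃ z, pre z σ.length = σ ∧ ∀ i < σ.length, (φ z).1 i = q.1 i ∧ (φ z).2 i = q.2 i,
    measurable_pi_lambda _ fun σ => measurableSet_setOfPred.1 (IsOpen.measurableSet ?_),
    fun q => ⟨?_, fun ⟨z, hz⟩ => ?_⟩⟩
  · rw [ofPred_exists]
    refine isOpen_iUnion fun z => isOpen_const.inter ?_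
    have : ∀ i, IsOpen {q : X × X | (φ z).1 i = q.1 i ∧ (φ z).2 i = q.2 i} := fun i =>
      ((isOpen_discrete {k | (φ z).1 i = k}).preimage (f := fun q : X × X => q.1 i)
        (by fun_prop)).inter
      ((isOpen_discrete {k | (φ z).2 i = k}).preimage (f := fun q : X × X => q.2 i) (by fun_prop))
    show IsOpen {q : X × X | ∀ i < σ.length, (φ z).1 i = q.1 i ∧ (φ z).2 i = q.2 i}
    simpa only [ofPred_forall, mem_Iio] using
      (finite_Iio σ.length).isOpen_biInter fun i _ => this i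
  · rintro ⟨z, rfl⟩
    exact ⟨z, fun n => ⟨z, by rw [pre_len], fun _ _ => ⟨rfl, rfl⟩⟩⟩
  · choose w w1 w2 using hz
    simp only [pre_len, pre_eq] at w1 w2
    have t : ∀ (a : ℕ → X) (b : X), (∀ n, ∀ i < n, a n i = b i) → Tendsto a atTop (𝓝 b) :=
      fun a b e => tendsto_pi_nhds.2 fun i => tendsto_const_nhds.congr'
        ((eventually_gt_atTop i).mono fun n hn => (e n i hn).symm)
    exact ⟨z, tendsto_nhds_unique ((h.tendsto z).comp (t w z w1))
      ((t _ _ fun n i hi => (w2 n i hi).1).prodMk_nhds (t _ _ fun n i hi => (w2 n i hi).2))⟩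

/-- the tree is well founded above the node -/
inductive Ac (T : List ℕ → Prop) : List ℕ → Prop
  | mk (σ : List ℕ) : (T σ → ∀ k, Ac T (σ ++ [k])) → Ac T σ

/-- the tree above the node is simulated by the tree of inner nodes of the code -/
inductive Em (T : List ℕ → Prop) : List ℕ → Code → Prop
  | mk (σ : List ℕ) (c : Code) (i : ℕ → ℕ) : (T σ → c [] = 0) →
      (T σ → ∀ k, Em T (σ ++ [k]) fun s => c (i k :: s)) → Em T σ c

lemma em_iff {T : List ℕ → Prop} {σ : List ℕ} {c : Code} : Em T σ c ↔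
    (T σ → c [] = 0 ∧ ∀ k, ∃ i, Em T (σ ++ [k]) fun s => c (i :: s)) := by
  refine ⟨fun ⟨_, _, i, a, b⟩ t => ⟨a t, fun k => ⟨_, b t k⟩⟩, fun h => ?_⟩
  by_cases t : T σ
  · choose i hi using (h t).2
    exact .mk _ _ i (fun _ => (h t).1) fun _ => hi
  · exact .mk _ _ id (fun u => (t u).elim) fun u => (t u).elim

lemma ac_of {T : List ℕ → Prop} (h : ¬ ∃ z, ∀ n, T (pre z n)) : Ac T [] := by
  by_contra n
  have k : ∀ s, ¬ Ac T s → T s ∧ ∃ i, ¬ Ac T (s ++ [i]) := fun s t => by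
    by_contra! u
    exact t (.mk s u)
  obtain ⟨z, hz⟩ := branch (fun s => ¬ Ac T s) n fun s t => (k s t).2
  exact h ⟨z, fun m => (k _ (hz m)).1⟩

lemma sub_meas (i : ℕ) : Measurable fun (c : Code) s => c (i :: s) :=
  measurable_pi_lambda _ fun _ => measurable_pi_apply _

lemma Ac.main {T : List ℕ → Prop} {σ : List ℕ} (h : Ac T σ) : Measurable (Em T σ) ∧
    (∀ c, ¬ Em T σ c → Wf c) ∧ Measurable fun u : Code × X × X => ¬ Em T σ u.1 ∧ Mem u.1 u.2 := by
  induction h with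
  | mk σ _ ih =>
    by_cases t : T σ
    swap
    · have : Em T σ = fun _ => True := funext fun c => eq_true (em_iff.2 fun u => (t u).elim)
      simp [this]
    have a := fun k => (ih t k).1
    have b := fun k => (ih t k).2.1
    have d := fun k => (ih t k).2.2
    have e : Em T σ = fun c => c [] = 0 ∧ ∀ k, ∃ i, Em T (σ ++ [k]) fun s => c (i :: s) :=
      funext fun c => propext (em_iff.trans (imp_iff_right t))
    have w : ∀ c, ¬ Em T σ c → Wf c := fun c hc => wf_iff.2 fun u i => by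
      rw [e] at hc
      obtain ⟨k, hk⟩ := not_forall.1 fun v => hc ⟨u, v⟩
      exact b k _ fun v => hk ⟨i, v⟩
    refine ⟨e ▸ .and (by fun_prop) (.forall fun k => .exists fun i => (a k).comp (sub_meas i)),
      w, ?_⟩
    have : (fun u : Code × X × X => ¬ Em T σ u.1 ∧ Mem u.1 u.2) = fun u =>
        (u.1 [] = 0 ∧ ∃ k, (∀ i, ¬ Em T (σ ++ [k]) fun s => u.1 (i :: s)) ∧ ∃ i,
          ¬ (¬ Em T (σ ++ [k]) (fun s => u.1 (i :: s)) ∧ Mem (fun s => u.1 (i :: s)) u.2)) ∨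
        ∃ k, u.1 [] = k + 1 ∧ u.2 ∈ bas k := by
      funext u
      refine propext ⟨fun ⟨h1, h2⟩ => (((w _ h1).mem _).1 h2).imp_left fun ⟨v, i, hi⟩ => ?_,
        fun h1 => ?_⟩
      · rw [e] at h1
        obtain ⟨k, hk⟩ := not_forall.1 fun x => h1 ⟨v, x⟩
        exact ⟨v, k, not_exists.1 hk, i, fun x => hi x.2⟩
      · have n : ¬ Em T σ u.1 := by
          rw [e]
          rintro ⟨v, x⟩
          rcases h1 with ⟨-, k, hk, -⟩ | ⟨k, hk, -⟩
          · exact (x k).elim hk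
          · omega
        exact ⟨n, ((w _ n).mem _).2 (h1.imp_left fun ⟨v, k, hk, i, hi⟩ =>
          ⟨v, i, fun x => hi ⟨hk i, x⟩⟩)⟩
    rw [this]
    exact .or (.and (by fun_prop) (.exists fun k => .and
      (.forall fun i => ((a k).comp ((sub_meas i).comp measurable_fst)).not) (.exists fun i =>
        ((d k).comp (((sub_meas i).comp measurable_fst).prodMk measurable_snd)).not))) (by fun_prop)

/-- simulation of a tree by the tree of inner nodes of a code -/
def Sim (T : List ℕ → Prop) (c : Code) (R : List ℕ → List ℕ → Prop) : Prop :=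
  R [] [] ∧ ∀ σ s, R σ s → T σ → c s = 0 ∧ ∀ k, ∃ i, R (σ ++ [k]) (s ++ [i])

lemma Sim.not_wf {T : List ℕ → Prop} {c : Code} {R : List ℕ → List ℕ → Prop} (h : Sim T c R)
    {z : X} (hz : ∀ n, T (pre z n)) : ¬ Wf c := fun w => by
  obtain ⟨y, hy⟩ := branch (fun s => R (pre z s.length) s) h.1 fun s t => by
    simpa [pre_succ] using (h.2 _ _ t (hz _)).2 (z s.length)
  obtain ⟨n, hn⟩ := wf_iff_br.1 w y
  exact hn (h.2 _ _ (hy n) (hz _)).1

/-- the space of witnesses -/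
abbrev W : Type := X × (List ℕ → List ℕ → Prop) × (List ℕ → Prop) × (List ℕ → Prop)

theorem unif {S : Set X} (hS : Sigma12 S) : ∃ C : X × (X × X) × W → Prop, Measurable C ∧
    ∀ x, x ∈ S ↔ ∃ f : X × X → W, Measurable f ∧ ∀ p, C (x, p, f p) := by
  obtain ⟨A, hA, rfl⟩ := hS
  obtain ⟨T, t1, t2⟩ := tree hA
  obtain ⟨κ, k1, k2⟩ := ex_surj Code
  refine ⟨fun u => Sim (T (u.1, u.2.2.1)) (κ u.2.1.1) u.2.2.2.1 ∨
    (Cons (κ u.2.1.1) u.2.1 u.2.2.2.2.1 u.2.2.2.2.2 ∧ u.2.2.2.2.1 []), ?_,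
    fun x => ⟨fun ⟨y, hy⟩ => ?_, fun ⟨f, f1, f2⟩ => by_contra fun n => ?_⟩⟩
  · unfold Sim
    fun_prop
  · have ac := ac_of (mt (t2 _).2 hy)
    generalize hT : T (x, y) = T0 at ac
    have m : ∀ (σ s) (Q : List ℕ → Code × X × X → Prop), (Ac T0 σ → Measurable (Q σ)) →
        Measurable fun p : X × X => Ac T0 σ ∧ Q σ (shift (κ p.1) s, p) := fun σ s Q h => by
      by_cases t : Ac T0 σ
      · exact .and measurable_const ((h t).comp (by fun_prop))
      · simp [t]
    refine ⟨fun p => (y, fun σ s => Ac T0 σ ∧ Em T0 σ (shift (κ p.1) s),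
      fun s => ∃ σ, Ac T0 σ ∧ ¬ Em T0 σ (shift (κ p.1) s),
      fun s => (∃ σ, Ac T0 σ ∧ ¬ Em T0 σ (shift (κ p.1) s)) ∧ Mem (shift (κ p.1) s) p),
      measurable_const.prodMk (.prodMk ?_ (.prodMk ?_ ?_)), fun p => ?_⟩
    · exact measurable_pi_lambda _ fun σ => measurable_pi_lambda _ fun s =>
        m σ s (fun σ u => Em T0 σ u.1) fun t => t.main.1.comp measurable_fst
    · exact measurable_pi_lambda _ fun s => .exists fun σ =>
        m σ s (fun σ u => ¬ Em T0 σ u.1) fun t => (t.main.1.comp measurable_fst).not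
    · simp only [← exists_and_right, and_assoc]
      exact measurable_pi_lambda _ fun s => .exists fun σ =>
        m σ s (fun σ u => ¬ Em T0 σ u.1 ∧ Mem u.1 u.2) fun t => t.main.2.2
    by_cases e : Em T0 [] (κ p.1)
    · refine Or.inl ⟨⟨ac, e⟩, fun σ s ⟨⟨_, a⟩, b⟩ t => ?_⟩
      rw [hT] at t
      have := em_iff.1 b t
      simp only [shift_snoc, shift_nil] at this
      exact ⟨this.1, fun k => (this.2 k).imp fun i v => ⟨a t k, v⟩⟩
    · refine Or.inr ⟨cons_mem p (fun s ⟨σ, a, b⟩ => a.main.2.1 _ b)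
        fun s ⟨σ, ⟨_, a⟩, b⟩ v i => ?_, [], ac, e⟩
      rw [em_iff] at b
      simp only [shift_snoc, shift_nil] at b
      push Not at b
      obtain ⟨k, hk⟩ := b.2 v
      exact ⟨_, a b.1 k, hk i⟩
  · obtain ⟨c, hc⟩ := ex_code (A := {p | ¬ (f p).2.2.2 []}) (Measurable.setOf (by fun_prop))
    obtain ⟨x0, rfl⟩ := k2 c
    rcases f2 (x0, x0) with h | h
    · obtain ⟨z, hz⟩ := (t2 (x, (f (x0, x0)).1)).1 (by_contra fun v => n ⟨_, v⟩)
      exact h.not_wf hz ⟨_, hc⟩
    · exact iff_not_self (hc.sound h.1 h.2)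

end Pool.Agent.Lib.BIso
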