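import Pool.Agent.Lib.MP_389802_lc.Unif

/-!
Borel isomorphism of Borel graphs is `Σ¹₂`.
-/

set_option autoImplicit false

namespace Pool.Agent.Lib.BIso

open Set MeasureTheory SimpleGraph

/-- codes of graphs -/
def Gr (c : Code) : Prop := Wf c ∧ (∀ x, Out c (x, x)) ∧ ∀ u : X × X, Out c u ∨ In c u.swap

lemma gr_iff {c : Code} : Gr c ↔ ∃ G, CodesG c G := by
  refine ⟨fun ⟨⟨A, h⟩, a, b⟩ => ⟨⟨fun x y => (x, y) ∈ A, ⟨fun x y t => ?_⟩,
    ⟨fun x => h.out_iff.1 (a x)⟩⟩, h⟩, fun ⟨G, h⟩ => ⟨⟨_, h⟩,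
      fun x => (Codes.out_iff h).2 (G.irrefl), fun u => ?_⟩⟩
  · exact (b (x, y)).elim (fun u => (h.out_iff.1 u t).elim) h.in_iff.1
  · rw [Codes.out_iff h, Codes.in_iff h]
    exact or_iff_not_imp_left.2 fun t => (not_not.1 t).symm

/-- `α` represents the map `f` -/
def Rep (α : ℕ → ℕ → Code) (f : X → X) : Prop :=
  ∀ n m, ∃ A, Codes (α n m) A ∧ ∀ x, (x, x) ∈ A ↔ f x n = m

lemma Rep.meas {α : ℕ → ℕ → Code} {f : X → X} (h : Rep α f) : Measurable f :=
  measurable_pi_lambda _ fun n => measurable_to_countable' fun m => by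
    obtain ⟨A, a, b⟩ := h n m
    have : (fun x => f x n) ⁻¹' {m} = (fun x => (x, x)) ⁻¹' A := Set.ext fun x => (b x).symm
    rw [this]
    exact (measurable_id.prodMk measurable_id) a.meas

lemma ex_rep {f : X → X} (h : Measurable f) : ∃ α, Rep α f := by
  choose α hα using fun n m => ex_code (A := {p | f p.1 n = m}) (Measurable.setOf (by fun_prop))
  exact ⟨α, fun n m => ⟨_, hα n m, fun x => Iff.rfl⟩⟩

/-- codes of maps -/
def Tot (α : ℕ → ℕ → Code) : Prop := (∀ n m, Wf (α n m)) ∧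
  ∀ x n, ∃ m, In (α n m) (x, x) ∧ ∀ k, k = m ∨ Out (α n k) (x, x)

lemma tot_iff {α : ℕ → ℕ → Code} : Tot α ↔ ∃ f, Rep α f := by
  refine ⟨fun ⟨a, b⟩ => ?_, fun ⟨f, h⟩ => ?_⟩
  · choose A hA using a
    choose f f1 f2 using b
    exact ⟨f, fun n m => ⟨_, hA n m, fun x => ⟨fun t => (f2 x n m).elim Eq.symm
      fun u => ((hA n m).out_iff.1 u t).elim, fun t => t ▸ (hA _ _).in_iff.1 (f1 x n)⟩⟩⟩
  · choose A a b using h
    exact ⟨fun n m => ⟨_, a n m⟩, fun x n => ⟨f x n, (a _ _).in_iff.2 ((b _ _ _).2 rfl), fun k =>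
      or_iff_not_imp_left.2 fun t => (a _ _).out_iff.2 fun u => t ((b _ _ _).1 u).symm⟩⟩

/-- the pair is not on the graph of the map -/
def NG (α : ℕ → ℕ → Code) (x y : X) : Prop := ∃ n m, y n = m ∧ Out (α n m) (x, x)

lemma Rep.ng {α : ℕ → ℕ → Code} {f : X → X} (h : Rep α f) {x y : X} : NG α x y ↔ f x ≠ y := by
  choose A a b using h
  simp only [NG, (a _ _).out_iff, b, exists_eq_left', Function.ne_iff]

/-- the second map is a left inverse of the first -/
def Inv (α β : ℕ → ℕ → Code) : Prop :=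
  ∀ u : X × X × X, NG α u.1 u.2.1 ∨ NG β u.2.1 u.2.2 ∨ u.2.2 = u.1

lemma inv_iff {α β : ℕ → ℕ → Code} {f g : X → X} (h : Rep α f) (h' : Rep β g) :
    Inv α β ↔ ∀ x, g (f x) = x := by
  simp only [Inv, h.ng, h'.ng]
  exact ⟨fun t x => by simpa using t (x, f x, g (f x)), fun t u => by grind⟩

/-- the map preserves edges and non-edges -/
def Pres (c d : Code) (α : ℕ → ℕ → Code) : Prop :=
  ∀ u : (X × X) × X × X, NG α u.1.1 u.2.1 ∨ NG α u.1.2 u.2.2 ∨
    (In c u.1 ∧ In d u.2) ∨ (Out c u.1 ∧ Out d u.2)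

lemma pres_iff {c d : Code} {G H : SimpleGraph X} {α : ℕ → ℕ → Code} {f : X → X}
    (hc : CodesG c G) (hd : CodesG d H) (h : Rep α f) :
    Pres c d α ↔ ∀ x y, H.Adj (f x) (f y) ↔ G.Adj x y := by
  simp only [Pres, h.ng, Codes.in_iff hc, Codes.in_iff hd, Codes.out_iff hc, Codes.out_iff hd,
    mem_ofPred_eq]
  exact ⟨fun t x y => by have := t ((x, y), f x, f y); grind, fun t u => by
    have := t u.1.1 u.1.2; grind⟩

section
variable {Z : Type} [MeasurableSpace Z] {c d : Z → Code} {α β : Z → ℕ → ℕ → Code} {x y : Z → X}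

lemma coa_gr (hc : Measurable c) : CoA fun z => Gr (c z) :=
  (coa_wf hc).and (.and (.all (coa_out (by fun_prop) (by fun_prop)))
    (.all (.or (coa_out (by fun_prop) (by fun_prop)) (coa_in (by fun_prop) (by fun_prop)))))

lemma coa_tot (hα : Measurable α) : CoA fun z => Tot (α z) :=
  .and (.allN fun n => .allN fun m => coa_wf (by fun_prop)) (.all (.allN fun n => .exN fun m =>
    .and (coa_in (by fun_prop) (by fun_prop)) (.allN fun k => .or (.of measurable_const)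
      (coa_out (by fun_prop) (by fun_prop)))))

lemma coa_ng (hα : Measurable α) (hx : Measurable x) (hy : Measurable y) :
    CoA fun z => NG (α z) (x z) (y z) :=
  .exN fun n => .exN fun m => .and (.of (by fun_prop)) (coa_out (by fun_prop) (by fun_prop))

lemma coa_inv (hα : Measurable α) (hβ : Measurable β) : CoA fun z => Inv (α z) (β z) :=
  .all (.or (coa_ng (by fun_prop) (by fun_prop) (by fun_prop))
    (.or (coa_ng (by fun_prop) (by fun_prop) (by fun_prop)) (.of (by fun_prop))))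

lemma coa_pres (hc : Measurable c) (hd : Measurable d) (hα : Measurable α) :
    CoA fun z => Pres (c z) (d z) (α z) :=
  .all (.or (coa_ng (by fun_prop) (by fun_prop) (by fun_prop))
    (.or (coa_ng (by fun_prop) (by fun_prop) (by fun_prop))
      (.or (.and (coa_in (by fun_prop) (by fun_prop)) (coa_in (by fun_prop) (by fun_prop)))
        (.and (coa_out (by fun_prop) (by fun_prop)) (coa_out (by fun_prop) (by fun_prop))))))

end

theorem upper : Sigma12 IsoB := by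
  refine sigma_iff.2 (S2.mk' (fun u : (Code × Code) × (ℕ → ℕ → Code) × (ℕ → ℕ → Code) =>
    Gr u.1.1 ∧ Gr u.1.2 ∧ Tot u.2.1 ∧ Tot u.2.2 ∧ Inv u.2.1 u.2.2 ∧ Inv u.2.2 u.2.1 ∧
      Pres u.1.1 u.1.2 u.2.1) ?_ fun ⟨c, d⟩ => ⟨fun ⟨G, H, hc, hd, φ, h⟩ => ?_,
        fun ⟨⟨α, β⟩, h1, h2, h3, h4, h5, h6, h7⟩ => ?_⟩)
  · exact (coa_gr (by fun_prop)).and ((coa_gr (by fun_prop)).and ((coa_tot (by fun_prop)).and
      ((coa_tot (by fun_prop)).and ((coa_inv (by fun_prop) (by fun_prop)).and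
      ((coa_inv (by fun_prop) (by fun_prop)).and
        (coa_pres (by fun_prop) (by fun_prop) (by fun_prop)))))))
  · have h' : Measurable φ.symm := fun s hs => by
      have := (h.measurableEmbedding φ.injective).measurableSet_image' hs
      rwa [show φ '' s = φ.symm ⁻¹' s from φ.toEquiv.image_eq_preimage_symm s] at this
    obtain ⟨α, a⟩ := ex_rep h
    obtain ⟨β, b⟩ := ex_rep h'
    exact ⟨(α, β), gr_iff.2 ⟨G, hc⟩, gr_iff.2 ⟨H, hd⟩, tot_iff.2 ⟨_, a⟩, tot_iff.2 ⟨_, b⟩,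
      (inv_iff a b).2 φ.symm_apply_apply, (inv_iff b a).2 φ.apply_symm_apply,
      (pres_iff hc hd a).2 fun x y => φ.map_adj_iff⟩
  · obtain ⟨G, hc⟩ := gr_iff.1 h1
    obtain ⟨H, hd⟩ := gr_iff.1 h2
    obtain ⟨f, a⟩ := tot_iff.1 h3
    obtain ⟨g, b⟩ := tot_iff.1 h4
    exact ⟨G, H, hc, hd, ⟨⟨f, g, (inv_iff a b).1 h5, (inv_iff b a).1 h6⟩,
      (pres_iff hc hd a).1 h7 _ _⟩, a.meas⟩

end Pool.Agent.Lib.BIso
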